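import Pool.Agent.H3.Sh2

namespace Pool.Agent.Results.MP_320b68_gt.Loops

open Pool.Agent.H3.Shadow

/-- An admissible `M ⊂ ℝ³` such that, at arbitrarily small scales `β`, arbitrarily dense finite
samples have a Vietoris-Rips shadow that is not homotopy equivalent to `M`. -/
theorem result : ∃ M : Set (E 3), Admissible M ∧ ∀ β₀ > (0 : ℝ), ∃ β ∈ Set.Ioo 0 β₀,
    ∀ η > (0 : ℝ), ∃ S : Finset (E 3),
      Metric.hausdorffEDist (S : Set (E 3)) M < ENNReal.ofReal η ∧
        IsEmpty (ContinuousMap.HomotopyEquiv (shadow β S) M) :=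
  main

end Pool.Agent.Results.MP_320b68_gt.Loops
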